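import Pool.Agent.TH142.WF.MainC
import Pool.Agent.TH142.WF.Small
import Pool.Agent.TH142.WF.Four
import Pool.Agent.TH142.WF.FiveA
import Pool.Agent.TH142.WF.FiveB
import Pool.Agent.TH142.WF.FiveC
import Pool.Agent.TH142.WF.FiveD
import Pool.Agent.TH142.WF.SixB
import Pool.Agent.TH142.WF.SixC
import Pool.Agent.TH142.WF.SixD
import Pool.Agent.TH142.WF.SixE

set_option autoImplicit false

/-!
# MP_921642_ag: the weak Fröberg–Iarrobino inequality

`dim L_{n,d}(m^s) ≥ ldim L_{n,d}(m^s)` for general points, for all `n ≥ 2`, `d ≥ 1`, `m ≥ 1` when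
`s ≥ 2 ^ n` (`s ≥ 5`), or `3 m ≤ 2 d + 3 - n`, or `3 m ≤ 2 d + 3 - c` and `s ≤ 2 ^ c + 1`, or
`2 m ≤ d + 1`; for all `s ≥ n + 3` when `n ≤ 4`, for `s ≥ 9` when `n = 5`, for `s ≥ 13` when `n = 6`.
-/

open MvPolynomial

namespace Pool.Agent.Results.MP_921642_ag.WeakInequality

/-- The form `F` in `n + 1` variables vanishes to order at least `m` at the point of projective
space with coordinate vector `v`: the polynomial `F (v + x)` has no terms of degree `< m`. -/
def VanishesToOrder {n : ℕ} (v : Fin (n + 1) → ℂ) (m : ℕ) (F : MvPolynomial (Fin (n + 1)) ℂ) :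
    Prop :=
  ∀ α : Fin (n + 1) →₀ ℕ, α.degree < m → coeff α (aeval (fun i => X i + C (v i)) F) = 0

/-- The vector space `L_{n,d}(m_1, …, m_s)` of forms of degree `d` in `n + 1` variables which vanish
to order at least `m i` at the point with coordinate vector `p i`, for every `i`. -/
noncomputable def linSys (n d : ℕ) {s : ℕ} (m : Fin s → ℕ) (p : Fin s → Fin (n + 1) → ℂ) :
    Submodule ℂ (MvPolynomial (Fin (n + 1)) ℂ) where
  carrier := {F | F.IsHomogeneous d ∧ ∀ i, VanishesToOrder (p i) (m i) F}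
  add_mem' := by
    rintro F G ⟨hF, hF'⟩ ⟨hG, hG'⟩
    refine ⟨hF.add hG, fun i α hα => ?_⟩
    rw [map_add, coeff_add, hF' i α hα, hG' i α hα, add_zero]
  zero_mem' := ⟨isHomogeneous_zero _ _ _, fun i α _ => by rw [map_zero, coeff_zero]⟩
  smul_mem' := by
    rintro c F ⟨hF, hF'⟩
    refine ⟨(homogeneousSubmodule (Fin (n + 1)) ℂ d).smul_mem c hF, fun i α hα => ?_⟩
    rw [map_smul, coeff_smul, hF' i α hα, smul_zero]

/-- The number `k_I`: it is `d` for `I = ∅` and `max (∑_{i ∈ I} m_i - (|I| - 1) d, 0)` otherwise. -/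
def kI (d : ℕ) {s : ℕ} (m : Fin s → ℕ) (I : Finset (Fin s)) : ℕ :=
  if I = ∅ then d else (∑ i ∈ I, m i) - (I.card - 1) * d

/-- The linear virtual dimension, with `c = r + 1 = |I|` running from `0` to `min n s`. -/
def lvdim (n d : ℕ) {s : ℕ} (m : Fin s → ℕ) : ℤ :=
  ∑ c ∈ Finset.range (min n s + 1), ∑ I ∈ Finset.powersetCard c (Finset.univ : Finset (Fin s)),
    (-1) ^ c * ((n + kI d m I - c).choose n : ℤ)

open Classical in
/-- The linear expected dimension. -/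
noncomputable def ldim (n d : ℕ) {s : ℕ} (m : Fin s → ℕ) : ℤ :=
  if ∃ m' : Fin s → ℕ, (∀ i, m' i ≤ m i) ∧ lvdim n d m' < 0 then 0 else max (lvdim n d m) 0

/-- **The weak Fröberg–Iarrobino inequality** `dim L_{n,d}(m^s) ≥ ldim L_{n,d}(m^s)` for general
points of `ℙⁿ`. -/
theorem result (n d m s : ℕ) (hn : 2 ≤ n) (hd : 1 ≤ d) (hm : 1 ≤ m)
    (h : (n ≤ 4 ∧ n + 3 ≤ s) ∨ (n = 5 ∧ 9 ≤ s) ∨ (n = 6 ∧ 13 ≤ s) ∨ (2 ^ n ≤ s ∧ 5 ≤ s) ∨
      (∃ c, 1 ≤ c ∧ c ≤ n ∧ s ≤ 2 ^ c + 1 ∧ 3 * m + c ≤ 2 * d + 3) ∨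
      3 * m + n ≤ 2 * d + 3 ∨ 2 * m ≤ d + 1) :
    ∃ P : MvPolynomial (Fin s × Fin (n + 1)) ℂ, P ≠ 0 ∧ ∀ p : Fin s → Fin (n + 1) → ℂ,
      eval (fun x : Fin s × Fin (n + 1) => p x.1 x.2) P ≠ 0 →
      ldim n d (fun _ : Fin s => m) ≤ (Module.finrank ℂ (linSys n d (fun _ => m) p) : ℤ) := by
  have key : 2 * m ≤ d + 1 ∨ (∃ c, 1 ≤ c ∧ c ≤ n ∧ s ≤ 2 ^ c + 1 ∧ 3 * m + c ≤ 2 * d + 3) ∨
      Pool.Agent.TH142.WF.ldim n d (fun _ : Fin s => m) = 0 := by
    rcases Nat.lt_or_ge (2 * m) (d + 2) with h1 | h1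
    · exact Or.inl (by omega)
    have h22 : 2 ^ 2 ≤ 2 ^ n := Nat.pow_le_pow_right (by norm_num) hn
    -- many points
    rcases Nat.lt_or_ge s (2 ^ n) with hs2 | hs2
    swap
    · rcases Nat.lt_or_ge s 5 with h5 | h5
      · have hs4 : s = 4 := by omega
        have hn2 : n = 2 := by
          by_contra hne
          have : 2 ^ 3 ≤ 2 ^ n := Nat.pow_le_pow_right (by norm_num) (by omega)
          omega
        rcases h with h | h | h | h | h | h | h
        · omega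
        · omega
        · omega
        · omega
        · exact Or.inr (Or.inl h)
        · exact Or.inr (Or.inl ⟨2, by omega, by omega, by norm_num; omega, by omega⟩)
        · omega
      · exact Or.inr (Or.inr (Pool.Agent.TH142.WF.ldim_many hn hs2 h5 hd h1))
    rcases Nat.lt_or_ge (2 * d + 3) (3 * m + n) with h2 | h2
    swap
    · exact Or.inr (Or.inl ⟨n, by omega, le_rfl, by omega, h2⟩)
    have small : n + 2 ≤ s → (d = 1 ∨ d = 2) →
        Pool.Agent.TH142.WF.ldim n d (fun _ : Fin s => m) = 0 := by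
      rintro hs (rfl | rfl)
      · exact Pool.Agent.TH142.WF.ldim_one hn hs (by omega)
      · exact Pool.Agent.TH142.WF.ldim_deg_two hn hs (by omega)
    rcases h with ⟨h4, hs⟩ | ⟨rfl, hs⟩ | ⟨rfl, hs⟩ | h | h | h | h
    · rcases (by omega : (d = 1 ∨ d = 2) ∨ 3 ≤ d) with hd2 | hd3
      · exact Or.inr (Or.inr (small (by omega) hd2))
      refine Or.inr (Or.inr ?_)
      interval_cases n
      · omega
      · norm_num at hs2 hs
        interval_cases s
        · exact Pool.Agent.TH142.WF.all_3_6 hd3 h1 h2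
        · exact Pool.Agent.TH142.WF.all_3_7 hd3 h1 h2
      · norm_num at hs2 hs
        interval_cases s
        · exact Pool.Agent.TH142.WF.all_4_7 hd3 h1 h2
        · exact Pool.Agent.TH142.WF.all_4_8 hd3 h1 h2
        · exact Pool.Agent.TH142.WF.all_4_9 hd3 h1 h2
        · exact Pool.Agent.TH142.WF.all_4_10 hd3 h1 h2
        · exact Pool.Agent.TH142.WF.all_4_11 hd3 h1 h2
        · exact Pool.Agent.TH142.WF.all_4_12 hd3 h1 h2
        · exact Pool.Agent.TH142.WF.all_4_13 hd3 h1 h2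
        · exact Pool.Agent.TH142.WF.all_4_14 hd3 h1 h2
        · exact Pool.Agent.TH142.WF.all_4_15 hd3 h1 h2
    · rcases (by omega : (d = 1 ∨ d = 2) ∨ 3 ≤ d) with hd2 | hd3
      · exact Or.inr (Or.inr (small (by omega) hd2))
      norm_num at hs2 hs
      rcases (by omega : s = 9 ∨ s = 10 ∨ 11 ≤ s) with rfl | rfl | hs11
      · rcases Nat.lt_or_ge (2 * d + 3) (3 * m + 3) with h3 | h3
        · exact Or.inr (Or.inr (Pool.Agent.TH142.WF.allc_5_9 hd3 h1 h3))
        · exact Or.inr (Or.inl ⟨3, by norm_num, by norm_num, by norm_num, h3⟩)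
      · rcases Nat.lt_or_ge (2 * d + 3) (3 * m + 4) with h3 | h3
        · exact Or.inr (Or.inr (Pool.Agent.TH142.WF.allc_5_10 hd3 h1 h3))
        · exact Or.inr (Or.inl ⟨4, by norm_num, by norm_num, by norm_num, h3⟩)
      refine Or.inr (Or.inr ?_)
      interval_cases s
      · exact Pool.Agent.TH142.WF.all_5_11 hd3 h1 h2
      · exact Pool.Agent.TH142.WF.all_5_12 hd3 h1 h2
      · exact Pool.Agent.TH142.WF.all_5_13 hd3 h1 h2
      · exact Pool.Agent.TH142.WF.all_5_14 hd3 h1 h2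
      · exact Pool.Agent.TH142.WF.all_5_15 hd3 h1 h2
      · exact Pool.Agent.TH142.WF.all_5_16 hd3 h1 h2
      · exact Pool.Agent.TH142.WF.all_5_17 hd3 h1 h2
      · exact Pool.Agent.TH142.WF.all_5_18 hd3 h1 h2
      · exact Pool.Agent.TH142.WF.all_5_19 hd3 h1 h2
      · exact Pool.Agent.TH142.WF.all_5_20 hd3 h1 h2
      · exact Pool.Agent.TH142.WF.all_5_21 hd3 h1 h2
      · exact Pool.Agent.TH142.WF.all_5_22 hd3 h1 h2
      · exact Pool.Agent.TH142.WF.all_5_23 hd3 h1 h2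
      · exact Pool.Agent.TH142.WF.all_5_24 hd3 h1 h2
      · exact Pool.Agent.TH142.WF.all_5_25 hd3 h1 h2
      · exact Pool.Agent.TH142.WF.all_5_26 hd3 h1 h2
      · exact Pool.Agent.TH142.WF.all_5_27 hd3 h1 h2
      · exact Pool.Agent.TH142.WF.all_5_28 hd3 h1 h2
      · exact Pool.Agent.TH142.WF.all_5_29 hd3 h1 h2
      · exact Pool.Agent.TH142.WF.all_5_30 hd3 h1 h2
      · exact Pool.Agent.TH142.WF.all_5_31 hd3 h1 h2
    · rcases (by omega : (d = 1 ∨ d = 2) ∨ 3 ≤ d) with hd2 | hd3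
      · exact Or.inr (Or.inr (small (by omega) hd2))
      norm_num at hs2
      rcases (by omega : s ≤ 17 ∨ 18 ≤ s) with hs17 | hs18
      · rcases Nat.lt_or_ge (2 * d + 3) (3 * m + 4) with h3 | h3
        · refine Or.inr (Or.inr ?_)
          interval_cases s
          · exact Pool.Agent.TH142.WF.allc_6_13 hd3 h1 h3
          · exact Pool.Agent.TH142.WF.allc_6_14 hd3 h1 h3
          · exact Pool.Agent.TH142.WF.allc_6_15 hd3 h1 h3
          · exact Pool.Agent.TH142.WF.allc_6_16 hd3 h1 h3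
          · exact Pool.Agent.TH142.WF.allc_6_17 hd3 h1 h3
        · exact Or.inr (Or.inl ⟨4, by norm_num, by norm_num, by norm_num; omega, h3⟩)
      refine Or.inr (Or.inr ?_)
      interval_cases s
      · exact Pool.Agent.TH142.WF.all_6_18 hd3 h1 h2
      · exact Pool.Agent.TH142.WF.all_6_19 hd3 h1 h2
      · exact Pool.Agent.TH142.WF.all_6_20 hd3 h1 h2
      · exact Pool.Agent.TH142.WF.all_6_21 hd3 h1 h2
      · exact Pool.Agent.TH142.WF.all_6_22 hd3 h1 h2
      · exact Pool.Agent.TH142.WF.all_6_23 hd3 h1 h2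
      · exact Pool.Agent.TH142.WF.all_6_24 hd3 h1 h2
      · exact Pool.Agent.TH142.WF.all_6_25 hd3 h1 h2
      · exact Pool.Agent.TH142.WF.all_6_26 hd3 h1 h2
      · exact Pool.Agent.TH142.WF.all_6_27 hd3 h1 h2
      · exact Pool.Agent.TH142.WF.all_6_28 hd3 h1 h2
      · exact Pool.Agent.TH142.WF.all_6_29 hd3 h1 h2
      · exact Pool.Agent.TH142.WF.all_6_30 hd3 h1 h2
      · exact Pool.Agent.TH142.WF.all_6_31 hd3 h1 h2
      · exact Pool.Agent.TH142.WF.all_6_32 hd3 h1 h2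
      · exact Pool.Agent.TH142.WF.all_6_33 hd3 h1 h2
      · exact Pool.Agent.TH142.WF.all_6_34 hd3 h1 h2
      · exact Pool.Agent.TH142.WF.all_6_35 hd3 h1 h2
      · exact Pool.Agent.TH142.WF.all_6_36 hd3 h1 h2
      · exact Pool.Agent.TH142.WF.all_6_37 hd3 h1 h2
      · exact Pool.Agent.TH142.WF.all_6_38 hd3 h1 h2
      · exact Pool.Agent.TH142.WF.all_6_39 hd3 h1 h2
      · exact Pool.Agent.TH142.WF.all_6_40 hd3 h1 h2
      · exact Pool.Agent.TH142.WF.all_6_41 hd3 h1 h2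
      · exact Pool.Agent.TH142.WF.all_6_42 hd3 h1 h2
      · exact Pool.Agent.TH142.WF.all_6_43 hd3 h1 h2
      · exact Pool.Agent.TH142.WF.all_6_44 hd3 h1 h2
      · exact Pool.Agent.TH142.WF.all_6_45 hd3 h1 h2
      · exact Pool.Agent.TH142.WF.all_6_46 hd3 h1 h2
      · exact Pool.Agent.TH142.WF.all_6_47 hd3 h1 h2
      · exact Pool.Agent.TH142.WF.all_6_48 hd3 h1 h2
      · exact Pool.Agent.TH142.WF.all_6_49 hd3 h1 h2
      · exact Pool.Agent.TH142.WF.all_6_50 hd3 h1 h2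
      · exact Pool.Agent.TH142.WF.all_6_51 hd3 h1 h2
      · exact Pool.Agent.TH142.WF.all_6_52 hd3 h1 h2
      · exact Pool.Agent.TH142.WF.all_6_53 hd3 h1 h2
      · exact Pool.Agent.TH142.WF.all_6_54 hd3 h1 h2
      · exact Pool.Agent.TH142.WF.all_6_55 hd3 h1 h2
      · exact Pool.Agent.TH142.WF.all_6_56 hd3 h1 h2
      · exact Pool.Agent.TH142.WF.all_6_57 hd3 h1 h2
      · exact Pool.Agent.TH142.WF.all_6_58 hd3 h1 h2
      · exact Pool.Agent.TH142.WF.all_6_59 hd3 h1 h2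
      · exact Pool.Agent.TH142.WF.all_6_60 hd3 h1 h2
      · exact Pool.Agent.TH142.WF.all_6_61 hd3 h1 h2
      · exact Pool.Agent.TH142.WF.all_6_62 hd3 h1 h2
      · exact Pool.Agent.TH142.WF.all_6_63 hd3 h1 h2
    · omega
    · exact Or.inr (Or.inl h)
    · omega
    · omega
  exact Pool.Agent.TH142.WF.Cube.weak_of hn hd hm key

end Pool.Agent.Results.MP_921642_ag.WeakInequality
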